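import Pool.Agent.N557.QW.Stm

/-!
# Project QWP (helper557): extension of a representation from an ideal (helper163)
-/

set_option autoImplicit false

open scoped InnerProductSpace ComplexOrder CStarAlgebra

namespace Pool.Agent.N163.QWP

open Pool.Agent.N557.QW

noncomputable section

theorem abs_y (A : Type) [CStarAlgebra A] (x : A) :
    ∃ y : A, star y * y = ((‖x‖ ^ 2 : ℝ) : ℂ) • (1 : A) - star x * x := by
  let _ : PartialOrder A := CStarAlgebra.spectralOrder A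
  have _ : StarOrderedRing A := CStarAlgebra.spectralOrderedRing A
  have h1 : star x * x ≤ algebraMap ℝ A (‖x‖ ^ 2) := CStarAlgebra.star_mul_le_algebraMap_norm_sq
  have h2 : 0 ≤ algebraMap ℝ A (‖x‖ ^ 2) - star x * x := sub_nonneg.2 h1
  obtain ⟨y, hy⟩ := CStarAlgebra.nonneg_iff_eq_star_mul_self.1 h2
  refine ⟨y, ?_⟩
  rw [← hy, Algebra.algebraMap_eq_smul_one, Complex.coe_smul]

/-- in a closed `*`-algebra `r² - x* x` is of the form `y* y` -/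
theorem exists_y {H₀ : Type} [NormedAddCommGroup H₀] [InnerProductSpace ℂ H₀] [CompleteSpace H₀]
    (C : StarSubalgebra ℂ (H₀ →L[ℂ] H₀)) (hC : IsClosed (C : Set (H₀ →L[ℂ] H₀))) (x : C) :
    ∃ (r : ℝ) (y : C), 0 ≤ r ∧ star y.1 * y.1 =
      ((r ^ 2 : ℝ) : ℂ) • (1 : H₀ →L[ℂ] H₀) - star x.1 * x.1 := by
  obtain ⟨y, hy⟩ := @abs_y C (StarSubalgebra.cstarAlgebra C (h_closed := hC)) x
  exact ⟨‖x‖, y, norm_nonneg _, congrArg (fun c : C => (c : H₀ →L[ℂ] H₀)) hy⟩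

section main

variable {H₀ H : Type} [NormedAddCommGroup H₀] [InnerProductSpace ℂ H₀] [CompleteSpace H₀]
  [NormedAddCommGroup H] [InnerProductSpace ℂ H] [CompleteSpace H]
  {C C₁ : StarSubalgebra ℂ (H₀ →L[ℂ] H₀)} {J : Submodule ℂ (H₀ →L[ℂ] H₀)}
  (ρ : C₁ →⋆ₐ[ℂ] (H →L[ℂ] H)) (hJ : ∀ j ∈ J, j ∈ C₁)
  (hCJ : ∀ x ∈ C, ∀ j ∈ J, x * j ∈ J) (hst : ∀ j ∈ J, star j ∈ J)

/-- the representation on the ideal -/
def R (j : J) : H →L[ℂ] H := ρ ⟨j.1, hJ j.1 j.2⟩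

/-- left multiplication -/
def act (x : C) (j : J) : J := ⟨x.1 * j.1, hCJ x.1 x.2 j.1 j.2⟩

theorem star_R_mul (j j' : J) : star (R ρ hJ j) * R ρ hJ j' =
    ρ (star ⟨j.1, hJ j.1 j.2⟩ * ⟨j'.1, hJ j'.1 j'.2⟩) := by
  rw [R, R, map_mul, map_star]

theorem key (x y : C) (r : ℝ)
    (hy : star y.1 * y.1 = ((r ^ 2 : ℝ) : ℂ) • (1 : H₀ →L[ℂ] H₀) - star x.1 * x.1) (j j' : J) :
    star (R ρ hJ (act hCJ y j)) * R ρ hJ (act hCJ y j') =
      ((r ^ 2 : ℝ) : ℂ) • (star (R ρ hJ j) * R ρ hJ j') -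
        star (R ρ hJ (act hCJ x j)) * R ρ hJ (act hCJ x j') := by
  rw [star_R_mul, star_R_mul, star_R_mul, ← map_smul, ← map_sub]
  congr 1
  apply Subtype.ext
  show star (y.1 * j.1) * (y.1 * j'.1) = ((r ^ 2 : ℝ) : ℂ) • (star j.1 * j'.1) -
    star (x.1 * j.1) * (x.1 * j'.1)
  have h1 : ∀ w : H₀ →L[ℂ] H₀, star (w * j.1) * (w * j'.1) = star j.1 * (star w * w) * j'.1 := by
    intro w
    rw [star_mul]
    simp only [mul_assoc]
  rw [h1, h1, hy, mul_sub, sub_mul, mul_smul_comm, mul_one, smul_mul_assoc]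

theorem inner_R (j j' : J) (v v' : H) : ⟪R ρ hJ j v, R ρ hJ j' v'⟫_ℂ =
    ⟪v, (star (R ρ hJ j) * R ρ hJ j') v'⟫_ℂ := by
  show _ = ⟪v, (star (R ρ hJ j)) (R ρ hJ j' v')⟫_ℂ
  rw [ContinuousLinearMap.star_eq_adjoint, ContinuousLinearMap.adjoint_inner_right]

theorem norm_ineq (hC : IsClosed (C : Set (H₀ →L[ℂ] H₀))) (x : C) :
    ∃ r : ℝ, 0 ≤ r ∧ ∀ {ι : Type} (s : Finset ι) (j : ι → J) (v : ι → H),
      ‖∑ k ∈ s, R ρ hJ (act hCJ x (j k)) (v k)‖ ≤ r * ‖∑ k ∈ s, R ρ hJ (j k) (v k)‖ := by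
  obtain ⟨r, y, hr, hy⟩ := exists_y C hC x
  refine ⟨r, hr, fun s j v => ?_⟩
  have h1 : ∀ f : J → J, ⟪∑ k ∈ s, R ρ hJ (f (j k)) (v k), ∑ k ∈ s, R ρ hJ (f (j k)) (v k)⟫_ℂ =
      ∑ k ∈ s, ∑ l ∈ s,
        ⟪v k, (star (R ρ hJ (f (j k))) * R ρ hJ (f (j l))) (v l)⟫_ℂ := by
    intro f
    rw [sum_inner]
    refine Finset.sum_congr rfl fun k _ => ?_
    rw [inner_sum]
    exact Finset.sum_congr rfl fun l _ => inner_R ρ hJ _ _ _ _
  have h2 : ⟪∑ k ∈ s, R ρ hJ (act hCJ y (j k)) (v k),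
      ∑ k ∈ s, R ρ hJ (act hCJ y (j k)) (v k)⟫_ℂ =
      ((r ^ 2 : ℝ) : ℂ) * ⟪∑ k ∈ s, R ρ hJ (j k) (v k), ∑ k ∈ s, R ρ hJ (j k) (v k)⟫_ℂ -
      ⟪∑ k ∈ s, R ρ hJ (act hCJ x (j k)) (v k), ∑ k ∈ s, R ρ hJ (act hCJ x (j k)) (v k)⟫_ℂ := by
    rw [h1 (act hCJ y), h1 (act hCJ x), h1 (fun j => j), Finset.mul_sum, ← Finset.sum_sub_distrib]
    refine Finset.sum_congr rfl fun k _ => ?_
    rw [Finset.mul_sum, ← Finset.sum_sub_distrib]
    refine Finset.sum_congr rfl fun l _ => ?_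
    rw [key ρ hJ hCJ x y r hy, sub_apply, inner_sub_right, smul_apply,
      inner_smul_right]
  have h3 : ∀ w : H, ⟪w, w⟫_ℂ = ((‖w‖ ^ 2 : ℝ) : ℂ) := by
    intro w
    rw [inner_self_eq_norm_sq_to_K]
    norm_cast
  rw [h3, h3, h3] at h2
  have h4 : ‖∑ k ∈ s, R ρ hJ (act hCJ y (j k)) (v k)‖ ^ 2 =
      r ^ 2 * ‖∑ k ∈ s, R ρ hJ (j k) (v k)‖ ^ 2 -
        ‖∑ k ∈ s, R ρ hJ (act hCJ x (j k)) (v k)‖ ^ 2 := by exact_mod_cast h2
  have h5 : ‖∑ k ∈ s, R ρ hJ (act hCJ x (j k)) (v k)‖ ^ 2 ≤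
      (r * ‖∑ k ∈ s, R ρ hJ (j k) (v k)‖) ^ 2 := by
    rw [mul_pow]
    nlinarith [sq_nonneg ‖∑ k ∈ s, R ρ hJ (act hCJ y (j k)) (v k)‖]
  exact le_of_sq_le_sq h5 (by positivity)

/-- the evaluation of finite combinations -/
def ev (f : J → J) : ((J × H) →₀ ℂ) →ₗ[ℂ] H :=
  Finsupp.linearCombination ℂ fun p : J × H => R ρ hJ (f p.1) p.2

theorem ev_apply (f : J → J) (a : (J × H) →₀ ℂ) :
    ev ρ hJ f a = ∑ p ∈ a.support, R ρ hJ (f p.1) (a p • p.2) := by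
  rw [ev, Finsupp.linearCombination_apply, Finsupp.sum]
  exact Finset.sum_congr rfl fun p _ => (map_smul _ _ _).symm

theorem ev_single (f : J → J) (j : J) (v : H) :
    ev ρ hJ f (Finsupp.single (j, v) 1) = R ρ hJ (f j) v := by
  rw [ev, Finsupp.linearCombination_single, one_smul]

/-- the span of the ranges -/
def SS : Submodule ℂ H := LinearMap.range (ev ρ hJ fun j => j)

theorem mem_SS (j : J) (v : H) : R ρ hJ j v ∈ SS ρ hJ := ⟨_, ev_single ρ hJ (fun j => j) j v⟩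

/-- the dense map -/
def ee : (((J × H) →₀ ℂ) × (SS ρ hJ)ᗮ) →ₗ[ℂ] H :=
  (ev ρ hJ fun j => j).coprod (SS ρ hJ)ᗮ.subtype

theorem ee_dense : DenseRange (ee ρ hJ) := by
  have h1 : LinearMap.range (ee ρ hJ) = SS ρ hJ ⊔ (SS ρ hJ)ᗮ := by
    rw [ee, LinearMap.range_coprod, Submodule.range_subtype]
    rfl
  have h2 : (SS ρ hJ ⊔ (SS ρ hJ)ᗮ).topologicalClosure = ⊤ := by
    rw [Submodule.topologicalClosure_eq_top_iff, ← Submodule.inf_orthogonal]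
    exact Submodule.inf_orthogonal_eq_bot (SS ρ hJ)ᗮ
  rw [DenseRange, ← LinearMap.coe_range, h1]
  exact Submodule.dense_iff_topologicalClosure_eq_top.2 h2

/-- two operators are equal if they agree on the ranges and on their orthogonal complement -/
theorem ext_SS (A B : H →L[ℂ] H) (h1 : ∀ j v, A (R ρ hJ j v) = B (R ρ hJ j v))
    (h2 : ∀ w ∈ (SS ρ hJ)ᗮ, A w = B w) : A = B := by
  have h3 : (A : H → H) = B := by
    refine (ee_dense ρ hJ).equalizer A.continuous B.continuous ?_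
    funext p
    obtain ⟨a, w⟩ := p
    show A (ee ρ hJ (a, w)) = B (ee ρ hJ (a, w))
    rw [ee, LinearMap.coprod_apply, map_add, map_add, ev_apply, map_sum, map_sum]
    congr 1
    · exact Finset.sum_congr rfl fun p _ => h1 _ _
    · exact h2 _ w.2
  exact DFunLike.coe_injective h3

/-- the map on finite combinations -/
def ff (x : C) : (((J × H) →₀ ℂ) × (SS ρ hJ)ᗮ) →ₗ[ℂ] H :=
  (ev ρ hJ (act hCJ x)).coprod 0

theorem ff_bound (hC : IsClosed (C : Set (H₀ →L[ℂ] H₀))) (x : C) :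
    ∃ r : ℝ, ∀ p, ‖ff ρ hJ hCJ x p‖ ≤ r * ‖ee ρ hJ p‖ := by
  obtain ⟨r, hr, h⟩ := norm_ineq ρ hJ hCJ hC x
  refine ⟨r, fun p => ?_⟩
  obtain ⟨a, w⟩ := p
  have h1 : ff ρ hJ hCJ x (a, w) = ev ρ hJ (act hCJ x) a := by
    rw [ff, LinearMap.coprod_apply]
    simp
  have h2 : ee ρ hJ (a, w) = ev ρ hJ (fun j => j) a + w := by
    rw [ee, LinearMap.coprod_apply]
    rfl
  have h3 : ‖ev ρ hJ (act hCJ x) a‖ ≤ r * ‖ev ρ hJ (fun j => j) a‖ := by
    rw [ev_apply, ev_apply]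
    exact h a.support (fun p => p.1) (fun p => a p • p.2)
  have h4 : ‖ev ρ hJ (fun j => j) a‖ ≤ ‖ev ρ hJ (fun j => j) a + w‖ := by
    have h5 : ⟪ev ρ hJ (fun j => j) a, (w : H)⟫_ℂ = 0 := w.2 _ ⟨a, rfl⟩
    have h6 := norm_add_sq_eq_norm_sq_add_norm_sq_of_inner_eq_zero (𝕜 := ℂ) _ _ h5
    have h7 := norm_nonneg (w : H)
    have h8 := norm_nonneg (ev ρ hJ (fun j => j) a)
    have h9 := norm_nonneg (ev ρ hJ (fun j => j) a + w)
    nlinarith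
  rw [h1, h2]
  exact h3.trans (mul_le_mul_of_nonneg_left h4 hr)

/-- the extension -/
def Psi (x : C) : H →L[ℂ] H := (ff ρ hJ hCJ x).extendOfNorm (ee ρ hJ)

variable (hC : IsClosed (C : Set (H₀ →L[ℂ] H₀)))

include hC in
theorem Psi_R (x : C) (j : J) (v : H) :
    Psi ρ hJ hCJ x (R ρ hJ j v) = R ρ hJ (act hCJ x j) v := by
  have h1 := LinearMap.extendOfNorm_eq (ee_dense ρ hJ) (ff_bound ρ hJ hCJ hC x)
    (Finsupp.single (j, v) 1, 0)
  have h2 : ee ρ hJ (Finsupp.single (j, v) 1, 0) = R ρ hJ j v := by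
    rw [ee, LinearMap.coprod_apply, ev_single]
    simp
  have h3 : ff ρ hJ hCJ x (Finsupp.single (j, v) 1, 0) = R ρ hJ (act hCJ x j) v := by
    rw [ff, LinearMap.coprod_apply, ev_single]
    simp
  rw [h2, h3] at h1
  exact h1

include hC in
theorem Psi_perp (x : C) (w : H) (hw : w ∈ (SS ρ hJ)ᗮ) : Psi ρ hJ hCJ x w = 0 := by
  have h1 := LinearMap.extendOfNorm_eq (ee_dense ρ hJ) (ff_bound ρ hJ hCJ hC x) (0, ⟨w, hw⟩)
  have h2 : ee ρ hJ (0, ⟨w, hw⟩) = w := by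
    rw [ee, LinearMap.coprod_apply]
    simp
  have h3 : ff ρ hJ hCJ x (0, ⟨w, hw⟩) = 0 := by
    rw [ff, LinearMap.coprod_apply]
    simp
  rw [h2, h3] at h1
  exact h1

include hst in
/-- the ideal kills the orthogonal complement -/
theorem R_perp (j : J) (w : H) (hw : w ∈ (SS ρ hJ)ᗮ) : R ρ hJ j w = 0 := by
  have h1 : R ρ hJ j = star (R ρ hJ ⟨star j.1, hst j.1 j.2⟩) := by
    rw [R, R, ← map_star]
    congr 1
    exact Subtype.ext (star_star j.1).symm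
  refine ext_inner_left ℂ fun u => ?_
  rw [h1, ContinuousLinearMap.star_eq_adjoint, ContinuousLinearMap.adjoint_inner_right,
    inner_zero_right]
  exact hw _ (mem_SS ρ hJ _ _)

/-- the orthogonal complement is invariant -/
theorem perp_of_comm (T : H →L[ℂ] H)
    (hR : ∀ j : J, ∀ w ∈ (SS ρ hJ)ᗮ, star (R ρ hJ j) w = 0)
    (hT : ∀ j : J, star (R ρ hJ j) * T = T * star (R ρ hJ j)) (w : H) (hw : w ∈ (SS ρ hJ)ᗮ) :
    T w ∈ (SS ρ hJ)ᗮ := by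
  rintro u ⟨a, rfl⟩
  rw [ev_apply, sum_inner]
  refine Finset.sum_eq_zero fun p _ => ?_
  rw [← ContinuousLinearMap.adjoint_inner_right, ← ContinuousLinearMap.star_eq_adjoint]
  have h1 : (star (R ρ hJ p.1)) (T w) = T (star (R ρ hJ p.1) w) := by
    have := congrArg (fun S : H →L[ℂ] H => S w) (hT p.1)
    exact this
  rw [h1, hR _ w hw, map_zero, inner_zero_right]

end main

theorem t_ext : S_EXT := by
  intro H₀ H _ _ _ _ _ _ C C₁ J ρ hle hJ hC hCJ hst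
  have hstarR : ∀ j : J, star (R ρ hJ j) = R ρ hJ ⟨star j.1, hst j.1 j.2⟩ := by
    intro j
    rw [R, R, ← map_star]
    rfl
  have hRperp := R_perp ρ hJ hst
  have hPR := Psi_R ρ hJ hCJ hC
  have hP0 := Psi_perp ρ hJ hCJ hC
  -- multiplication by elements of `C₁`
  have hρR : ∀ (c : C₁) (j : J) (v : H), ρ c (R ρ hJ j v) =
      R ρ hJ (act hCJ ⟨c.1, hle c.2⟩ j) v := by
    intro c j v
    have h1 : ρ c * R ρ hJ j = R ρ hJ (act hCJ ⟨c.1, hle c.2⟩ j) := by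
      rw [R, R, ← map_mul]
      rfl
    rw [← h1]
    rfl
  have hlin : ∀ (x y : C) (j : J) (v : H), R ρ hJ (act hCJ (x + y) j) v =
      R ρ hJ (act hCJ x j) v + R ρ hJ (act hCJ y j) v := by
    intro x y j v
    rw [← add_apply]
    congr 1
    rw [R, R, R, ← map_add]
    congr 1
  have hsm : ∀ (a : ℂ) (x : C) (j : J) (v : H), R ρ hJ (act hCJ (a • x) j) v =
      a • R ρ hJ (act hCJ x j) v := by
    intro a x j v
    rw [← smul_apply]
    congr 1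
    rw [R, R, ← map_smul]
    congr 1
  let Ψ : C →ₗ[ℂ] (H →L[ℂ] H) :=
    { toFun := Psi ρ hJ hCJ
      map_add' := fun x y => ext_SS ρ hJ _ _
        (fun j v => by rw [add_apply, hPR, hPR, hPR, hlin])
        (fun w hw => by rw [add_apply, hP0 _ w hw, hP0 _ w hw, hP0 _ w hw, add_zero])
      map_smul' := fun a x => ext_SS ρ hJ _ _
        (fun j v => by rw [RingHom.id_apply, smul_apply, hPR, hPR, hsm])
        (fun w hw => by rw [RingHom.id_apply, smul_apply, hP0 _ w hw, hP0 _ w hw, smul_zero]) }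
  have hΨ : ∀ x, Ψ x = Psi ρ hJ hCJ x := fun _ => rfl
  have hmulR : ∀ (x y : C) (j : J), act hCJ (x * y) j = act hCJ x (act hCJ y j) := by
    intro x y j
    exact Subtype.ext (mul_assoc x.1 y.1 j.1)
  have honeR : ∀ j : J, act hCJ (1 : C) j = j := fun j => Subtype.ext (one_mul j.1)
  have hmul : ∀ x y, Ψ (x * y) = Ψ x * Ψ y := by
    intro x y
    refine ext_SS ρ hJ _ _ (fun j v => ?_) (fun w hw => ?_)
    · show Psi ρ hJ hCJ (x * y) (R ρ hJ j v) = Psi ρ hJ hCJ x (Psi ρ hJ hCJ y (R ρ hJ j v))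
      rw [hPR, hPR, hPR, hmulR]
    · show Psi ρ hJ hCJ (x * y) w = Psi ρ hJ hCJ x (Psi ρ hJ hCJ y w)
      rw [hP0 _ w hw, hP0 _ w hw, map_zero]
  -- the adjoint
  have hstar : ∀ x, Ψ (star x) = star (Ψ x) := by
    intro x
    have hpair : ∀ (j j' : J) (v v' : H),
        ⟪R ρ hJ (act hCJ (star x) j) v, R ρ hJ j' v'⟫_ℂ =
          ⟪R ρ hJ j v, R ρ hJ (act hCJ x j') v'⟫_ℂ := by
      intro j j' v v'
      rw [inner_R, inner_R, star_R_mul, star_R_mul]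
      congr 2
      congr 1
      apply Subtype.ext
      show star (star x.1 * j.1) * j'.1 = star j.1 * (x.1 * j'.1)
      rw [star_mul, star_star, mul_assoc]
    have hinner : ∀ (A : H →L[ℂ] H) (u : H) (b : H), ⟪star A u, b⟫_ℂ = ⟪u, A b⟫_ℂ := by
      intro A u b
      rw [ContinuousLinearMap.star_eq_adjoint, ContinuousLinearMap.adjoint_inner_left]
    have hfun : ∀ (u u' : H), (∀ j v, ⟪u', R ρ hJ j v⟫_ℂ = ⟪u, Ψ x (R ρ hJ j v)⟫_ℂ) →
        (∀ w ∈ (SS ρ hJ)ᗮ, ⟪u', w⟫_ℂ = 0) → u' = star (Ψ x) u := by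
      intro u u' h1 h2
      have h3 : (innerSL ℂ u').smulRight u = (innerSL ℂ (star (Ψ x) u)).smulRight u := by
        refine ext_SS ρ hJ _ _ (fun j v => ?_) (fun w hw => ?_)
        · show ⟪u', R ρ hJ j v⟫_ℂ • u = ⟪star (Ψ x) u, R ρ hJ j v⟫_ℂ • u
          rw [h1, hinner]
        · show ⟪u', w⟫_ℂ • u = ⟪star (Ψ x) u, w⟫_ℂ • u
          rw [h2 w hw, hinner, hΨ, hP0 _ w hw, inner_zero_right]
      by_cases hu : u = 0
      · subst hu
        rw [map_zero]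
        have h4 : ∀ j v, ⟪u', R ρ hJ j v⟫_ℂ = 0 := fun j v => by rw [h1, inner_zero_left]
        have h5 : (innerSL ℂ u').smulRight u' = 0 := by
          refine ext_SS ρ hJ _ _ (fun j v => ?_) (fun w hw => ?_)
          · show ⟪u', R ρ hJ j v⟫_ℂ • u' = 0
            rw [h4, zero_smul]
          · show ⟪u', w⟫_ℂ • u' = 0
            rw [h2 w hw, zero_smul]
        have h6 : ⟪u', u'⟫_ℂ • u' = 0 := congrArg (fun S : H →L[ℂ] H => S u') h5
        rcases smul_eq_zero.1 h6 with h7 | h7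
        · exact inner_self_eq_zero.1 h7
        · exact h7
      · refine ext_inner_right ℂ fun b => ?_
        have h4 : ⟪u', b⟫_ℂ • u = ⟪star (Ψ x) u, b⟫_ℂ • u :=
          congrArg (fun S : H →L[ℂ] H => S b) h3
        exact smul_left_injective ℂ hu h4
    refine ext_SS ρ hJ _ _ (fun j v => ?_) (fun w hw => ?_)
    · refine hfun _ _ (fun j' v' => ?_) (fun w hw => ?_)
      · rw [hΨ, hΨ, hPR, hPR, hpair]
      · rw [hΨ, hPR]
        exact hw _ (mem_SS ρ hJ _ _)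
    · refine hfun _ _ (fun j' v' => ?_) (fun w' hw' => ?_)
      · rw [hΨ, hΨ, hP0 _ w hw, hPR, inner_zero_left]
        exact ((Submodule.mem_orthogonal' _ _).1 hw _ (mem_SS ρ hJ _ _)).symm
      · rw [hΨ, hP0 _ w hw, inner_zero_left]
  -- commutation
  have hcomm : ∀ T ∈ Set.centralizer (Set.range ρ), ∀ x, Ψ x * T = T * Ψ x := by
    intro T hT x
    have hT' : ∀ c : C₁, ρ c * T = T * ρ c := fun c => hT _ ⟨c, rfl⟩
    have hTR : ∀ j : J, R ρ hJ j * T = T * R ρ hJ j := fun j => hT' _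
    refine ext_SS ρ hJ _ _ (fun j v => ?_) (fun w hw => ?_)
    · show Psi ρ hJ hCJ x (T (R ρ hJ j v)) = T (Psi ρ hJ hCJ x (R ρ hJ j v))
      have h1 : T (R ρ hJ j v) = R ρ hJ j (T v) :=
        (congrArg (fun S : H →L[ℂ] H => S v) (hTR j)).symm
      have h2 : T (R ρ hJ (act hCJ x j) v) = R ρ hJ (act hCJ x j) (T v) :=
        (congrArg (fun S : H →L[ℂ] H => S v) (hTR (act hCJ x j))).symm
      rw [h1, hPR, hPR, h2]
    · show Psi ρ hJ hCJ x (T w) = T (Psi ρ hJ hCJ x w)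
      rw [hP0 _ w hw, map_zero]
      refine hP0 _ _ (perp_of_comm ρ hJ T (fun j w hw => ?_) (fun j => ?_) w hw)
      · rw [hstarR]
        exact hRperp _ w hw
      · rw [hstarR]
        exact hTR _
  have hdc : ∀ x, Ψ x ∈ Set.centralizer (Set.centralizer (Set.range ρ)) := by
    intro x T hT
    exact (hcomm T hT x).symm
  have hz : ∀ c, Ψ 1 * ρ c = ρ c * Ψ 1 := by
    intro c
    refine ext_SS ρ hJ _ _ (fun j v => ?_) (fun w hw => ?_)
    · show Psi ρ hJ hCJ 1 (ρ c (R ρ hJ j v)) = ρ c (Psi ρ hJ hCJ 1 (R ρ hJ j v))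
      rw [hρR, hPR, hPR, honeR, honeR, hρR]
    · show Psi ρ hJ hCJ 1 (ρ c w) = ρ c (Psi ρ hJ hCJ 1 w)
      rw [hP0 _ w hw, map_zero]
      refine hP0 _ _ ?_
      rintro u ⟨a, rfl⟩
      rw [ev_apply, sum_inner]
      refine Finset.sum_eq_zero fun p _ => ?_
      have h1 : ⟪R ρ hJ p.1 (a p • p.2), ρ c w⟫_ℂ =
          ⟪ρ (star c) (R ρ hJ p.1 (a p • p.2)), w⟫_ℂ := by
        rw [map_star, ContinuousLinearMap.star_eq_adjoint, ContinuousLinearMap.adjoint_inner_left]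
      rw [h1, hρR]
      exact hw _ (mem_SS ρ hJ _ _)
  refine ⟨Ψ 1, Ψ, ?_, ?_, ?_, hz, hdc 1, hdc, ?_, hmul, hstar⟩
  · rw [← hstar, star_one]
  · rw [← hmul, one_mul]
  · intro j hj
    ext v
    show Psi ρ hJ hCJ 1 (R ρ hJ ⟨j, hj⟩ v) = R ρ hJ ⟨j, hj⟩ v
    rw [hPR, honeR]
  · intro c hc
    refine ext_SS ρ hJ _ _ (fun j v => ?_) (fun w hw => ?_)
    · show Psi ρ hJ hCJ ⟨c, hle hc⟩ (R ρ hJ j v) = ρ ⟨c, hc⟩ (Psi ρ hJ hCJ 1 (R ρ hJ j v))
      rw [hPR, hPR, honeR, hρR]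
    · show Psi ρ hJ hCJ ⟨c, hle hc⟩ w = ρ ⟨c, hc⟩ (Psi ρ hJ hCJ 1 w)
      rw [hP0 _ w hw, hP0 _ w hw, map_zero]

end

end Pool.Agent.N163.QWP
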